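import Pool.Agent.V11109.CX.Final

/-!
# Cuntz subequivalence to functions on `X` in crossed products of `C(X, D)`

In the setting of the problem every nonzero positive element of `C(X, D)` dominates a nonzero
function on `X` (in the crossed product) if `X` is infinite. If `X` is finite, this holds if and
only if `1` is dominated by each nonzero positive element of `D`; it fails for `D = M₂` over a
point.
-/

set_option autoImplicit false

namespace Pool.Agent.Results.MP_79262d_an.Dichotomy

open Pool.Agent.V11109.CX

/-- (1) Let `D` be a simple unital C*-algebra, `X` a nonempty compact metric space, `G` a discrete
group acting minimally and essentially freely on `X`, `α` an action of `G` on `C(X, D)` which lies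
over the action on `X` and is pseudoperiodically generated, `A` the reduced crossed product. Every
nonzero positive `a : C(X, D)` dominates a nonzero positive function on `X` in `A` if and only if
`X` is infinite or `1 ≾ d` for each nonzero positive element `d` of `D`.
(2) There is an example with finite `X` where this fails. -/
theorem result :
    (∀ S : System, S.Dominates ↔ (Infinite S.X ∨ OneDominated S.D)) ∧
    ∃ S : System, Finite S.X ∧ ¬ S.Dominates := by
  refine ⟨fun S => dichotomy S.setting S.crossed, sysU, ?_, not_dominates⟩
  exact inferInstanceAs (Finite Unit)

end Pool.Agent.Results.MP_79262d_an.Dichotomy
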